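import Pool.Agent.J4H13.LC.Jobs2
import Pool.Agent.J4H63.LC.Count

/-!
# Job COUNT3 of project LC
-/

set_option autoImplicit false

namespace Pool.Agent.J4H71.LC

open Finset Pool.Agent.J4H13.LA Pool.Agent.J4H63.LC

open scoped Classical in
/-- lower bound for the weight of a block -/
lemma w_ge {n : ℕ} (Φc : Finset (Finset (Fin n))) (F : Finset (Fin n)) (h2 : 2 ≤ F.card) :
    (if Even F.card then (1 : ℚ) else 0) + 2 * (if ¬ Even F.card ∧ F ∉ Φc then (1 : ℚ) else 0) -
      (1 - 1 / n) * (if ¬ Even F.card ∧ F ∈ Φc then (1 : ℚ) else 0) ≤ w Φc F := by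
  have hr : (0 : ℚ) < F.card := by
    have : 0 < F.card := by omega
    exact_mod_cast this
  have hrn : (F.card : ℚ) ≤ n := by
    have := Finset.card_le_univ F
    rw [Fintype.card_fin] at this
    exact_mod_cast this
  unfold w
  by_cases h1 : Even F.card
  · simp [h1]
  · by_cases h3 : F ∈ Φc
    · simp only [h1, h3, if_true, if_false, not_true_eq_false, not_false_eq_true, and_true,
        and_false, mul_zero, add_zero, mul_one, zero_sub]
      rw [le_div_iff₀ hr]
      have h4 : (1 : ℚ) / n * F.card ≤ 1 := by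
        rw [one_div, ← div_eq_inv_mul]
        exact div_le_one_of_le₀ hrn (by linarith)
      nlinarith
    · have h4 : 3 ≤ F.card := by
        rcases Nat.lt_or_ge F.card 3 with h | h
        · exfalso
          apply h1
          have : F.card = 2 := by omega
          rw [this]
          exact even_two
        · exact h
      have h5 : (3 : ℚ) ≤ F.card := by exact_mod_cast h4
      simp only [h1, h3, if_true, if_false, not_false_eq_true, and_true,
        and_false, mul_zero, mul_one, zero_add, sub_zero]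
      rw [le_div_iff₀ hr]
      linarith

theorem t_COUNT3 : Pool.Agent.J4H13.LC.S_COUNT3 := by
  classical
  intro n d hd hn Φ Φc hLS hsub hthree hcount
  have hn3 : 3 ≤ n := by omega
  have hnq : (3 : ℚ) ≤ n := by exact_mod_cast hn3
  have hval : ∃ i : Fin n, ∑ F ∈ Φ.filter (fun F => i ∈ F), w Φc F ≤ -1 + 1 / n := by
    by_contra hcon
    push Not at hcon
    have h1 : ∑ F ∈ Φ, (F.card : ℚ) * w Φc F = ∑ i : Fin n, ∑ F ∈ Φ.filter (fun F => i ∈ F), w Φc F := by
      have h2 : ∀ F ∈ Φ, (F.card : ℚ) * w Φc F = ∑ i : Fin n, if i ∈ F then w Φc F else 0 := by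
        intro F _
        rw [← Finset.sum_filter, Finset.sum_const, nsmul_eq_mul]
        congr 3
        ext i
        simp
      rw [Finset.sum_congr rfl h2, Finset.sum_comm]
      refine Finset.sum_congr rfl fun i _ => ?_
      rw [Finset.sum_filter]
    have h3 : -(n : ℚ) + 1 < ∑ F ∈ Φ, (F.card : ℚ) * w Φc F := by
      rw [h1]
      have hne : (Finset.univ : Finset (Fin n)).Nonempty := ⟨⟨0, by omega⟩, Finset.mem_univ _⟩
      calc -(n : ℚ) + 1 = ∑ i : Fin n, (-1 + 1 / n : ℚ) := by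
            rw [Finset.sum_const, Finset.card_univ, Fintype.card_fin, nsmul_eq_mul]
            field_simp
        _ < _ := Finset.sum_lt_sum_of_nonempty hne fun i _ => hcon i
    have h4 : (8 : ℚ) * ∑ F ∈ Φ, ((((F.card + if F ∈ Φc then 1 else 0) / 2).choose 2 : ℕ) : ℚ) +
        ∑ F ∈ Φ, (F.card : ℚ) * w Φc F = ∑ F ∈ Φ, (F.card : ℚ) * (F.card - 1) := by
      rw [Finset.mul_sum, ← Finset.sum_add_distrib]
      exact Finset.sum_congr rfl fun F hF => w_eq Φc F (hLS.1 F hF)
    have h5 : ∑ F ∈ Φ, (F.card : ℚ) * (F.card - 1) = n * (n - 1) := by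
      have h6 := hLS.card_pairs
      have h7 : ((∑ F ∈ Φ, F.card * (F.card - 1) : ℕ) : ℚ) = ((n * (n - 1) : ℕ) : ℚ) := by rw [h6]
      rw [Nat.cast_sum] at h7
      have h8 : ∀ F ∈ Φ, ((F.card * (F.card - 1) : ℕ) : ℚ) = (F.card : ℚ) * (F.card - 1) := by
        intro F hF
        have := hLS.1 F hF
        rw [Nat.cast_mul, Nat.cast_sub (by omega)]
        simp
      rw [Finset.sum_congr rfl h8] at h7
      rw [h7, Nat.cast_mul, Nat.cast_sub (by omega)]
      simp
    have h9 : ((d - 1).choose 2 : ℚ) ≤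
        ∑ F ∈ Φ, ((((F.card + if F ∈ Φc then 1 else 0) / 2).choose 2 : ℕ) : ℚ) := by
      have := (Nat.cast_le (α := ℚ)).2 hcount
      rw [Nat.cast_sum] at this
      exact this
    have h10 := ch2q (d - 1)
    have h11 : (n : ℚ) = 2 * ((d - 1 : ℕ) : ℚ) - 1 := by
      have : n + 1 = 2 * (d - 1) := by omega
      have h : ((n + 1 : ℕ) : ℚ) = ((2 * (d - 1) : ℕ) : ℚ) := by rw [this]
      push_cast at h
      linarith
    rw [h5] at h4
    rw [h11] at h3 h4
    nlinarith
  obtain ⟨i, hi⟩ := hval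
  set T := Φ.filter (fun F => i ∈ F) with hT
  have hT2 : ∀ F ∈ T, 2 ≤ F.card := fun F hF => hLS.1 F (Finset.mem_filter.1 hF).1
  set Te := T.filter (fun F => Even F.card) with hTe
  set Tc := T.filter (fun F => ¬ Even F.card ∧ F ∈ Φc) with hTc
  set To := T.filter (fun F => ¬ Even F.card ∧ F ∉ Φc) with hTo
  have hsum : (Te.card : ℚ) + 2 * To.card - (1 - 1 / n) * Tc.card ≤ ∑ F ∈ T, w Φc F := by
    have h1 := Finset.sum_le_sum fun F hF => w_ge Φc F (hT2 F hF)
    rw [Finset.sum_sub_distrib, Finset.sum_add_distrib, ← Finset.mul_sum, ← Finset.mul_sum,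
      ← Finset.sum_filter, ← Finset.sum_filter, ← Finset.sum_filter] at h1
    simpa [hTe, hTc, hTo] using h1
  have heven : Even Te.card := by
    have h1 := hLS.card_through i
    rw [← hT] at h1
    have h2 : ¬ Odd (∑ F ∈ T, (F.card - 1)) := by
      rw [h1, Nat.not_odd_iff_even]
      exact ⟨d - 2, by omega⟩
    rw [Finset.odd_sum_iff_odd_card_odd] at h2
    have h3 : T.filter (fun F => Odd (F.card - 1)) = Te := by
      rw [hTe]
      refine Finset.filter_congr fun F hF => ?_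
      have := hT2 F hF
      constructor
      · rintro ⟨k, hk⟩
        exact ⟨k + 1, by omega⟩
      · rintro ⟨k, hk⟩
        exact ⟨k - 1, by omega⟩
    rw [h3] at h2
    exact Nat.not_odd_iff_even.1 h2
  have hc3 : Tc.card ≤ 3 := by
    refine (Finset.card_le_card ?_).trans (hthree i)
    intro F hF
    rw [hTc, Finset.mem_filter, hT, Finset.mem_filter] at hF
    rw [Finset.mem_filter]
    exact ⟨hF.2.2, hF.1.2⟩
  have hle : Te.card + 2 * To.card < 2 := by
    by_contra hcon
    push Not at hcon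
    have h1 : (2 : ℚ) ≤ (Te.card : ℚ) + 2 * To.card := by exact_mod_cast hcon
    have h2 : (Tc.card : ℚ) ≤ 3 := by exact_mod_cast hc3
    have h3 : (0 : ℚ) < 1 / n := by positivity
    have h4 : (1 : ℚ) / n ≤ 1 / 3 := one_div_le_one_div_of_le (by norm_num) hnq
    nlinarith [hsum.trans hi]
  have hTe0 : Te.card = 0 := by
    obtain ⟨k, hk⟩ := heven
    omega
  have hTo0 : To.card = 0 := by omega
  -- all blocks through `i`
  have hall : ∀ F ∈ T, F ∈ Tc := by
    intro F hF
    by_cases h1 : Even F.card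
    · exfalso
      have : F ∈ Te := Finset.mem_filter.2 ⟨hF, h1⟩
      rw [Finset.card_eq_zero.1 hTe0] at this
      exact Finset.notMem_empty _ this
    · by_cases h2 : F ∈ Φc
      · exact Finset.mem_filter.2 ⟨hF, h1, h2⟩
      · exfalso
        have : F ∈ To := Finset.mem_filter.2 ⟨hF, h1, h2⟩
        rw [Finset.card_eq_zero.1 hTo0] at this
        exact Finset.notMem_empty _ this
  have hcov0 : ∀ j, i ≠ j → ∃ F ∈ Tc, j ∈ F := by
    intro j hij
    obtain ⟨F, hF, hiF, hjF⟩ := hLS.2.1 i j hij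
    exact ⟨F, hall F (Finset.mem_filter.2 ⟨hF, hiF⟩), hjF⟩
  have hmemc : ∀ F ∈ Tc, F ∈ Φc ∧ Odd F.card ∧ i ∈ F := by
    intro F hF
    have h1 := Finset.mem_filter.1 hF
    exact ⟨h1.2.2, Nat.not_even_iff_odd.1 h1.2.1, (Finset.mem_filter.1 h1.1).2⟩
  have hne : Tc.Nonempty := by
    have : ∃ j : Fin n, i ≠ j := by
      by_cases h : i = ⟨0, by omega⟩
      · exact ⟨⟨1, by omega⟩, by rw [h]; simp⟩
      · exact ⟨_, h⟩
    obtain ⟨j, hj⟩ := this
    obtain ⟨F, hF, -⟩ := hcov0 j hj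
    exact ⟨F, hF⟩
  have hcov : ∀ j, ∃ F ∈ Tc, j ∈ F := by
    intro j
    by_cases hij : i = j
    · obtain ⟨F, hF⟩ := hne
      exact ⟨F, hF, hij ▸ (hmemc F hF).2.2⟩
    · exact hcov0 j hij
  have hpos := Finset.card_pos.2 hne
  have hcases : Tc.card = 1 ∨ Tc.card = 2 ∨ Tc.card = 3 := by omega
  rcases hcases with h | h | h
  · left
    obtain ⟨A, hA⟩ := Finset.card_eq_one.1 h
    have hA' : A ∈ Tc := by rw [hA]; exact Finset.mem_singleton_self A
    refine ⟨A, (hmemc A hA').1, fun j => ?_⟩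
    obtain ⟨F, hF, hj⟩ := hcov j
    rw [hA, Finset.mem_singleton] at hF
    rwa [hF] at hj
  · right; left
    obtain ⟨A, B, hAB, hA⟩ := Finset.card_eq_two.1 h
    have hA' : A ∈ Tc := by rw [hA]; simp
    have hB' : B ∈ Tc := by rw [hA]; simp
    obtain ⟨h1, h2, h3⟩ := hmemc A hA'
    obtain ⟨h1', h2', h3'⟩ := hmemc B hB'
    refine ⟨A, h1, B, h1', hAB, h2, h2', ⟨i, h3, h3'⟩, fun j => ?_⟩
    obtain ⟨F, hF, hj⟩ := hcov j
    rw [hA, Finset.mem_insert, Finset.mem_singleton] at hF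
    rcases hF with rfl | rfl
    · exact Or.inl hj
    · exact Or.inr hj
  · right; right
    obtain ⟨A, B, E, hAB, hAE, hBE, hA⟩ := Finset.card_eq_three.1 h
    have hA' : A ∈ Tc := by rw [hA]; simp
    have hB' : B ∈ Tc := by rw [hA]; simp
    have hE' : E ∈ Tc := by rw [hA]; simp
    obtain ⟨h1, h2, h3⟩ := hmemc A hA'
    obtain ⟨h1', h2', h3'⟩ := hmemc B hB'
    obtain ⟨h1'', h2'', h3''⟩ := hmemc E hE'
    refine ⟨A, h1, B, h1', E, h1'', hAB, hAE, hBE, h2, h2', h2'', ⟨i, h3, h3', h3''⟩, fun j => ?_⟩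
    obtain ⟨F, hF, hj⟩ := hcov j
    rw [hA, Finset.mem_insert, Finset.mem_insert, Finset.mem_singleton] at hF
    rcases hF with rfl | rfl | rfl
    · exact Or.inl hj
    · exact Or.inr (Or.inl hj)
    · exact Or.inr (Or.inr hj)

end Pool.Agent.J4H71.LC
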