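import Pool.Agent.J4H13.LC.Jobs2
import Pool.Agent.H552R3.Tsen.C1

/-!
# Job TSEN of project LC
-/

set_option autoImplicit false

namespace Pool.Agent.J4H71.LC

open MvPolynomial

theorem t_TSEN : Pool.Agent.J4H13.LC.S_TSEN := by
  classical
  intro K _ _ s hs α hα β hβ γ hγ
  set R : IntermediateField ℂ K := IntermediateField.adjoin ℂ ({s} : Set K) with hR
  have hsR : s ∈ R := IntermediateField.mem_adjoin_simple_self ℂ s
  set x : R := ⟨s, hsR⟩ with hx
  have hcoe : ∀ p : Polynomial ℂ, ((Polynomial.aeval x p : R) : K) = Polynomial.aeval s p := by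
    intro p
    exact (Polynomial.aeval_algebraMap_apply K x p).symm
  have hxt : Transcendental ℂ x := by
    rintro ⟨p, hp, hp0⟩
    refine hs ⟨p, hp, ?_⟩
    rw [← hcoe, hp0]
    rfl
  have hspan : ∀ z : R, ∃ h : Polynomial ℂ, h ≠ 0 ∧ ∃ p : Unit → Polynomial ℂ,
      Polynomial.aeval x h * z = ∑ j, Polynomial.aeval x (p j) * (fun _ : Unit => (1 : R)) j := by
    intro z
    obtain ⟨r, t, hrt⟩ := (IntermediateField.mem_adjoin_simple_iff ℂ (z : K)).1 z.2
    by_cases ht : Polynomial.aeval s t = 0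
    · refine ⟨1, one_ne_zero, fun _ => 0, ?_⟩
      have hz : z = 0 := by
        apply Subtype.ext
        rw [hrt, ht, div_zero]
        rfl
      rw [hz]
      simp
    · refine ⟨t, ?_, fun _ => r, ?_⟩
      · rintro rfl
        exact ht (map_zero _)
      · apply Subtype.ext
        rw [Finset.univ_unique, Finset.sum_singleton, mul_one]
        show ((Polynomial.aeval x t : R) : K) * (z : K) = ((Polynomial.aeval x r : R) : K)
        rw [hcoe, hcoe, hrt, mul_div_cancel₀ _ ht]
  have hlin : ∀ p : Unit → Polynomial ℂ,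
      ∑ j, Polynomial.aeval x (p j) * (fun _ : Unit => (1 : R)) j = 0 → ∀ j, p j = 0 := by
    intro p hp j
    rw [Finset.univ_unique, Finset.sum_singleton, mul_one] at hp
    by_contra hne
    exact hxt ⟨p j, hne, hp⟩
  set A : R := ⟨α, hα⟩
  set B : R := ⟨β, hβ⟩
  set G : R := ⟨γ, hγ⟩
  set Ψ : MvPolynomial (Fin 3) R := X 0 ^ 2 - (C A * X 1 ^ 2 + C B * (X 1 * X 2) + C G * X 2 ^ 2)
    with hΨ
  have hdX : ∀ i j : Fin 3, (X i * X j : MvPolynomial (Fin 3) R).totalDegree ≤ 2 := by
    intro i j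
    refine (totalDegree_mul _ _).trans ?_
    rw [totalDegree_X, totalDegree_X]
  have hdC : ∀ (a : R) (p : MvPolynomial (Fin 3) R), p.totalDegree ≤ 2 → (C a * p).totalDegree ≤ 2 := by
    intro a p hp
    refine (totalDegree_mul _ _).trans ?_
    rw [totalDegree_C]
    omega
  have hdeg : Ψ.totalDegree ≤ 2 := by
    rw [hΨ]
    refine (totalDegree_sub _ _).trans (max_le ?_ ?_)
    · rw [pow_two]
      exact hdX 0 0
    · refine (totalDegree_add _ _).trans (max_le ?_ ?_)
      · refine (totalDegree_add _ _).trans (max_le ?_ ?_)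
        · refine hdC _ _ ?_
          rw [pow_two]
          exact hdX 1 1
        · exact hdC _ _ (hdX 1 2)
      · refine hdC _ _ ?_
        rw [pow_two]
        exact hdX 2 2
  obtain ⟨a, ha, hav⟩ := Pool.Agent.H552R3.Tsen.exists_zero x (fun _ : Unit => (1 : R)) hxt hspan hlin Ψ 2
    hdeg (by rw [hΨ]; simp) (by simp)
  refine ⟨a 0, (a 0).2, a 1, (a 1).2, a 2, (a 2).2, ?_, ?_⟩
  · by_contra hcon
    push Not at hcon
    apply ha
    funext i
    fin_cases i
    · exact Subtype.ext hcon.1
    · exact Subtype.ext hcon.2.1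
    · exact Subtype.ext hcon.2.2
  · rw [hΨ] at hav
    simp only [map_sub, map_add, map_mul, map_pow, eval_X, eval_C] at hav
    have h1 := congrArg (fun z : R => (z : K)) (sub_eq_zero.1 hav)
    exact h1

end Pool.Agent.J4H71.LC
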